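import Pool.Agent.Helper546_reg.Class
import Pool.Agent.Helper546_reg.Final

/-!
Counting short circuits in the matroids of Seymour's decomposition theorem: if `l` is the girth
of `M` and `M` has `m` elements, then for every positive integer `k` there are at most
`m ^ (660 * k)` circuits of length at most `k * l`.
-/

namespace Pool.Agent.Results.MP_dbe88a_co.SeymourSums

open Pool.Agent.Helper546Reg

universe u

theorem result (α : Type u) (M : Matroid α) (hM : SeymourClass M) (hm : 2 ≤ M.E.ncard)
    (l : ℕ) (hl : ∃ C, M.IsCircuit C ∧ C.ncard = l) (hmin : ∀ C, M.IsCircuit C → l ≤ C.ncard)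
    (k : ℕ) (hk : 1 ≤ k) :
    {C | M.IsCircuit C ∧ C.ncard ≤ k * l}.ncard ≤ M.E.ncard ^ (660 * k) :=
  count_circuits M hM hm l hmin hl k hk

end Pool.Agent.Results.MP_dbe88a_co.SeymourSums
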